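import Mathlib

/-!
# The game of Hex: a lower bound for the fastest guaranteed win

Cells of the board of side `n` are the pairs `(i, j)` with `0 ≤ i, j < n` (row `i`, column `j`);
the six neighbours of `(i, j)` are `(i, j ± 1)`, `(i + 1, j)`, `(i + 1, j - 1)`, `(i - 1, j)`,
`(i - 1, j + 1)`.
-/

namespace Pool.Agent.R5.HX

/-- Cells of the (infinite) hexagonal grid. -/
abbrev Cell := ℤ × ℤ

/-- The cells of the `n × n` Hex board. -/
noncomputable def Board (n : ℕ) : Finset Cell := Finset.Ico (0 : ℤ) n ×ˢ Finset.Ico (0 : ℤ) n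

/-- Adjacency of hexagonal cells: the six neighbours. -/
def Adj (a b : Cell) : Prop :=
  (b.1 = a.1 ∧ (b.2 = a.2 + 1 ∨ b.2 = a.2 - 1)) ∨
  (b.1 = a.1 + 1 ∧ (b.2 = a.2 ∨ b.2 = a.2 - 1)) ∨
  (b.1 = a.1 - 1 ∧ (b.2 = a.2 ∨ b.2 = a.2 + 1))

/-- `T` contains a chain of consecutively adjacent cells from a cell satisfying `p` to a cell
satisfying `q`. -/
def Linked (T : Finset Cell) (p q : Cell → Prop) : Prop :=
  ∃ a ∈ T, ∃ b ∈ T, p a ∧ q b ∧ Relation.ReflTransGen (fun x y => y ∈ T ∧ Adj x y) a b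

/-- The first player has joined her two sides (row `0` and row `n - 1`). -/
def FirstWon (n : ℕ) (F : Finset Cell) : Prop :=
  Linked F (fun c => c.1 = 0) (fun c => c.1 = (n : ℤ) - 1)

/-- The second player has joined his two sides (column `0` and column `n - 1`). -/
def SecondWon (n : ℕ) (S : Finset Cell) : Prop :=
  Linked S (fun c => c.2 = 0) (fun c => c.2 = (n : ℤ) - 1)

/-- `CanWin n k F S`: with the stones `F` (first player) and `S` (second player) on the board of
side `n`, nobody having won yet and the first player to move, the first player can force a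
completed chain within at most `k` further moves of hers. -/
def CanWin (n : ℕ) : ℕ → Finset Cell → Finset Cell → Prop
  | 0, _, _ => False
  | k + 1, F, S => ∃ c ∈ Board n, c ∉ F ∧ c ∉ S ∧
      (FirstWon n (insert c F) ∨
        ((∃ d ∈ Board n, d ∉ insert c F ∧ d ∉ S) ∧
          ∀ d ∈ Board n, d ∉ insert c F → d ∉ S →
            ¬ SecondWon n (insert d S) ∧ CanWin n k (insert c F) (insert d S)))

/-- The cell `b` is closed to the first player. -/
def Blk (n : ℕ) (S : Finset Cell) (b : Cell) : Prop := b ∈ S ∨ b ∉ Board n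

/-- The pair `p, q` is under control of the second player. -/
def Pr (n : ℕ) (F S : Finset Cell) (p q : Cell) : Prop :=
  p ∈ S ∨ q ∈ S ∨ p ∉ Board n ∨ q ∉ Board n ∨ (p ∉ F ∧ q ∉ F)

/-- A gadget: a key stone, a closed cell and two controlled pairs. -/
def Gad (n : ℕ) (F S : Finset Cell) (s b p₁ q₁ p₂ q₂ : Cell) : Prop :=
  s ∈ F ∧ Blk n S b ∧ Pr n F S p₁ q₁ ∧ Pr n F S p₂ q₂

/-- The invariant of the second player's strategy in the group of the rows
`4g, 4g+1, 4g+2, 4g+3`. -/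
def Good (n : ℕ) (F S : Finset Cell) (g : ℤ) : Prop :=
  (∀ x ∈ F, ¬ (4 * g ≤ x.1 ∧ x.1 < 4 * g + 4)) ∨
  (∃ x ∈ F, ∃ y ∈ F, x ≠ y ∧ x.1 = y.1 ∧ 4 * g ≤ x.1 ∧ x.1 < 4 * g + 4) ∨
  (∃ i j : ℤ, 4 * g ≤ i ∧ i ≤ 4 * g + 1 ∧
    Gad n F S (i, j) (i + 2, j - 1) (i + 1, j) (i + 2, j) (i + 1, j - 1) (i + 2, j - 2)) ∨
  (∃ i j : ℤ, 4 * g + 2 ≤ i ∧ i ≤ 4 * g + 3 ∧
    Gad n F S (i, j) (i - 2, j + 1) (i - 1, j) (i - 2, j) (i - 1, j + 1) (i - 2, j + 2))

/-- The invariant of the second player's strategy. -/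
def Inv (n : ℕ) (F S : Finset Cell) : Prop :=
  F ⊆ Board n ∧ Disjoint F S ∧ ∀ g : ℤ, 0 ≤ g → 4 * g + 3 < n → Good n F S g

lemma Blk.mono {n : ℕ} {S : Finset Cell} {b : Cell} (d : Cell) (h : Blk n S b) :
    Blk n (insert d S) b := by
  rcases h with h | h
  · exact Or.inl (Finset.mem_insert_of_mem h)
  · exact Or.inr h

lemma Pr.mono {n : ℕ} {F S : Finset Cell} {p q : Cell} (d : Cell) (h : Pr n F S p q) :
    Pr n F (insert d S) p q := by
  rcases h with h | h | h
  · exact Or.inl (Finset.mem_insert_of_mem h)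
  · exact Or.inr (Or.inl (Finset.mem_insert_of_mem h))
  · exact Or.inr (Or.inr h)

lemma Gad.mono {n : ℕ} {F S : Finset Cell} {s b p₁ q₁ p₂ q₂ : Cell} (d : Cell)
    (h : Gad n F S s b p₁ q₁ p₂ q₂) : Gad n F (insert d S) s b p₁ q₁ p₂ q₂ :=
  ⟨h.1, h.2.1.mono d, h.2.2.1.mono d, h.2.2.2.mono d⟩

lemma Good.mono {n : ℕ} {F S : Finset Cell} {g : ℤ} (d : Cell) (h : Good n F S g) :
    Good n F (insert d S) g := by
  rcases h with h | h | ⟨i, j, h1, h2, h⟩ | ⟨i, j, h1, h2, h⟩
  · exact Or.inl h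
  · exact Or.inr (Or.inl h)
  · exact Or.inr (Or.inr (Or.inl ⟨i, j, h1, h2, h.mono d⟩))
  · exact Or.inr (Or.inr (Or.inr ⟨i, j, h1, h2, h.mono d⟩))

lemma Pr.other {n : ℕ} {F S : Finset Cell} {p q c : Cell} (h : Pr n F S p q)
    (hp : c ≠ p) (hq : c ≠ q) : Pr n (insert c F) S p q := by
  rcases h with h | h | h | h | ⟨h1, h2⟩
  · exact Or.inl h
  · exact Or.inr (Or.inl h)
  · exact Or.inr (Or.inr (Or.inl h))
  · exact Or.inr (Or.inr (Or.inr (Or.inl h)))
  · refine Or.inr (Or.inr (Or.inr (Or.inr ⟨?_, ?_⟩)))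
    · rw [Finset.mem_insert, not_or]; exact ⟨fun e => hp e.symm, h1⟩
    · rw [Finset.mem_insert, not_or]; exact ⟨fun e => hq e.symm, h2⟩

lemma Gad.other {n : ℕ} {F S : Finset Cell} {s b p₁ q₁ p₂ q₂ c : Cell}
    (h : Gad n F S s b p₁ q₁ p₂ q₂) (h1 : c ≠ p₁) (h2 : c ≠ q₁) (h3 : c ≠ p₂) (h4 : c ≠ q₂) :
    Gad n (insert c F) S s b p₁ q₁ p₂ q₂ :=
  ⟨Finset.mem_insert_of_mem h.1, h.2.1, h.2.2.1.other h1 h2, h.2.2.2.other h3 h4⟩

lemma Good.other {n : ℕ} {F S : Finset Cell} {g : ℤ} {c : Cell} (h : Good n F S g)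
    (hc : ¬ (4 * g ≤ c.1 ∧ c.1 < 4 * g + 4)) : Good n (insert c F) S g := by
  rcases h with h | ⟨x, hx, y, hy, h⟩ | ⟨i, j, h1, h2, h⟩ | ⟨i, j, h1, h2, h⟩
  · left
    intro x hx
    rcases Finset.mem_insert.1 hx with rfl | hx
    · exact hc
    · exact h x hx
  · exact Or.inr (Or.inl ⟨x, Finset.mem_insert_of_mem hx, y, Finset.mem_insert_of_mem hy, h⟩)
  · refine Or.inr (Or.inr (Or.inl ⟨i, j, h1, h2, h.other ?_ ?_ ?_ ?_⟩)) <;>
    · rintro rfl
      apply hc
      constructor <;> dsimp only <;> omega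
  · refine Or.inr (Or.inr (Or.inr ⟨i, j, h1, h2, h.other ?_ ?_ ?_ ?_⟩)) <;>
    · rintro rfl
      apply hc
      constructor <;> dsimp only <;> omega

/-- The reply inside a controlled pair. -/
lemma Pr.step {n : ℕ} {F S : Finset Cell} {p q c : Cell} (h : Pr n F S p q) (hpq : p ≠ q)
    (hcB : c ∈ Board n) (hcS : c ∉ S) :
    Pr n (insert c F) S p q ∨
      ∃ d ∈ Board n, d ∉ insert c F ∧ d ∉ S ∧ Pr n (insert c F) (insert d S) p q := by
  by_cases hp : c = p
  · subst hp
    by_cases hqS : q ∈ S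
    · exact Or.inl (Or.inr (Or.inl hqS))
    by_cases hqB : q ∈ Board n
    · right
      refine ⟨q, hqB, ?_, hqS, Or.inr (Or.inl (Finset.mem_insert_self _ _))⟩
      rcases h with h | h | h | h | ⟨h1, h2⟩
      · exact absurd h hcS
      · exact absurd h hqS
      · exact absurd hcB h
      · exact absurd hqB h
      · rw [Finset.mem_insert, not_or]; exact ⟨fun e => hpq e.symm, h2⟩
    · exact Or.inl (Or.inr (Or.inr (Or.inr (Or.inl hqB))))
  by_cases hq : c = q
  · subst hq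
    by_cases hpS : p ∈ S
    · exact Or.inl (Or.inl hpS)
    by_cases hpB : p ∈ Board n
    · right
      refine ⟨p, hpB, ?_, hpS, Or.inl (Finset.mem_insert_self _ _)⟩
      rcases h with h | h | h | h | ⟨h1, h2⟩
      · exact absurd h hpS
      · exact absurd h hcS
      · exact absurd hpB h
      · exact absurd hcB h
      · rw [Finset.mem_insert, not_or]; exact ⟨fun e => hp e.symm, h1⟩
    · exact Or.inl (Or.inr (Or.inr (Or.inl hpB)))
  · exact Or.inl (h.other hp hq)

/-- The reply inside a gadget. -/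
lemma Gad.step {n : ℕ} {F S : Finset Cell} {s b p₁ q₁ p₂ q₂ c : Cell}
    (h : Gad n F S s b p₁ q₁ p₂ q₂) (h1 : p₁ ≠ q₁) (h2 : p₂ ≠ q₂)
    (h3 : p₁ ≠ p₂) (h4 : p₁ ≠ q₂) (h5 : q₁ ≠ p₂) (h6 : q₁ ≠ q₂)
    (hcB : c ∈ Board n) (hcS : c ∉ S) :
    Gad n (insert c F) S s b p₁ q₁ p₂ q₂ ∨
      ∃ d ∈ Board n, d ∉ insert c F ∧ d ∉ S ∧
        Gad n (insert c F) (insert d S) s b p₁ q₁ p₂ q₂ := by
  obtain ⟨hs, hb, hp1, hp2⟩ := h
  by_cases hc : c = p₁ ∨ c = q₁
  · have hne : c ≠ p₂ ∧ c ≠ q₂ := by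
      rcases hc with rfl | rfl
      · exact ⟨h3, h4⟩
      · exact ⟨h5, h6⟩
    have hp2' := hp2.other hne.1 hne.2
    rcases hp1.step h1 hcB hcS with h | ⟨d, hdB, hdF, hdS, h⟩
    · exact Or.inl ⟨Finset.mem_insert_of_mem hs, hb, h, hp2'⟩
    · exact Or.inr ⟨d, hdB, hdF, hdS, Finset.mem_insert_of_mem hs, hb.mono d, h, hp2'.mono d⟩
  · rw [not_or] at hc
    have hp1' := hp1.other hc.1 hc.2
    rcases hp2.step h2 hcB hcS with h | ⟨d, hdB, hdF, hdS, h⟩
    · exact Or.inl ⟨Finset.mem_insert_of_mem hs, hb, hp1', h⟩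
    · exact Or.inr ⟨d, hdB, hdF, hdS, Finset.mem_insert_of_mem hs, hb.mono d, hp1'.mono d, h⟩

/-- The reply in the group of rows in which the first player has moved. -/
lemma Good.step {n : ℕ} {F S : Finset Cell} {g : ℤ} {c : Cell} (h : Good n F S g)
    (hc : 4 * g ≤ c.1 ∧ c.1 < 4 * g + 4) (hcB : c ∈ Board n) (hcS : c ∉ S) :
    Good n (insert c F) S g ∨
      ∃ d ∈ Board n, d ∉ insert c F ∧ d ∉ S ∧ Good n (insert c F) (insert d S) g := by
  rcases h with h | ⟨x, hx, y, hy, h⟩ | ⟨i, j, h1, h2, h⟩ | ⟨i, j, h1, h2, h⟩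
  · -- the group was empty
    obtain ⟨i, j⟩ := c
    simp only at hc
    have hout : ∀ u v : ℤ, 4 * g ≤ u → u < 4 * g + 4 → u ≠ i → (u, v) ∉ insert (i, j) F := by
      intro u v hu1 hu2 hui
      rw [Finset.mem_insert, not_or]
      refine ⟨?_, ?_⟩
      · intro e
        exact hui (congrArg Prod.fst e)
      · intro hF
        exact h _ hF ⟨hu1, hu2⟩
    by_cases hi : i ≤ 4 * g + 1
    · have hG : ∀ S' : Finset Cell, Blk n S' (i + 2, j - 1) → Good n (insert (i, j) F) S' g := by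
        intro S' hS'
        refine Or.inr (Or.inr (Or.inl ⟨i, j, hc.1, hi, Finset.mem_insert_self _ _, hS', ?_, ?_⟩))
        · exact Or.inr (Or.inr (Or.inr (Or.inr
            ⟨hout _ _ (by omega) (by omega) (by omega), hout _ _ (by omega) (by omega) (by omega)⟩)))
        · exact Or.inr (Or.inr (Or.inr (Or.inr
            ⟨hout _ _ (by omega) (by omega) (by omega), hout _ _ (by omega) (by omega) (by omega)⟩)))
      by_cases hS : ((i + 2, j - 1) : Cell) ∈ S
      · exact Or.inl (hG S (Or.inl hS))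
      by_cases hB : ((i + 2, j - 1) : Cell) ∈ Board n
      · exact Or.inr ⟨_, hB, hout _ _ (by omega) (by omega) (by omega), hS,
          hG _ (Or.inl (Finset.mem_insert_self _ _))⟩
      · exact Or.inl (hG S (Or.inr hB))
    · have hG : ∀ S' : Finset Cell, Blk n S' (i - 2, j + 1) → Good n (insert (i, j) F) S' g := by
        intro S' hS'
        refine Or.inr (Or.inr (Or.inr ⟨i, j, by omega, by omega, Finset.mem_insert_self _ _,
          hS', ?_, ?_⟩))
        · exact Or.inr (Or.inr (Or.inr (Or.inr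
            ⟨hout _ _ (by omega) (by omega) (by omega), hout _ _ (by omega) (by omega) (by omega)⟩)))
        · exact Or.inr (Or.inr (Or.inr (Or.inr
            ⟨hout _ _ (by omega) (by omega) (by omega), hout _ _ (by omega) (by omega) (by omega)⟩)))
      by_cases hS : ((i - 2, j + 1) : Cell) ∈ S
      · exact Or.inl (hG S (Or.inl hS))
      by_cases hB : ((i - 2, j + 1) : Cell) ∈ Board n
      · exact Or.inr ⟨_, hB, hout _ _ (by omega) (by omega) (by omega), hS,
          hG _ (Or.inl (Finset.mem_insert_self _ _))⟩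
      · exact Or.inl (hG S (Or.inr hB))
  · exact Or.inl (Or.inr (Or.inl
      ⟨x, Finset.mem_insert_of_mem hx, y, Finset.mem_insert_of_mem hy, h⟩))
  · rcases h.step (c := c) (by intro e; rw [Prod.mk.injEq] at e; omega) (by intro e; rw [Prod.mk.injEq] at e; omega)
      (by intro e; rw [Prod.mk.injEq] at e; omega) (by intro e; rw [Prod.mk.injEq] at e; omega)
      (by intro e; rw [Prod.mk.injEq] at e; omega) (by intro e; rw [Prod.mk.injEq] at e; omega) hcB hcS with h' | ⟨d, hdB, hdF, hdS, h'⟩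
    · exact Or.inl (Or.inr (Or.inr (Or.inl ⟨i, j, h1, h2, h'⟩)))
    · exact Or.inr ⟨d, hdB, hdF, hdS, Or.inr (Or.inr (Or.inl ⟨i, j, h1, h2, h'⟩))⟩
  · rcases h.step (c := c) (by intro e; rw [Prod.mk.injEq] at e; omega) (by intro e; rw [Prod.mk.injEq] at e; omega)
      (by intro e; rw [Prod.mk.injEq] at e; omega) (by intro e; rw [Prod.mk.injEq] at e; omega)
      (by intro e; rw [Prod.mk.injEq] at e; omega) (by intro e; rw [Prod.mk.injEq] at e; omega) hcB hcS with h' | ⟨d, hdB, hdF, hdS, h'⟩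
    · exact Or.inl (Or.inr (Or.inr (Or.inr ⟨i, j, h1, h2, h'⟩)))
    · exact Or.inr ⟨d, hdB, hdF, hdS, Or.inr (Or.inr (Or.inr ⟨i, j, h1, h2, h'⟩))⟩

/-- The second player can always keep the invariant. -/
lemma Inv.reply {n : ℕ} {F S : Finset Cell} {c : Cell} (h : Inv n F S)
    (hcB : c ∈ Board n) (hcS : c ∉ S)
    (hd : ∃ d ∈ Board n, d ∉ insert c F ∧ d ∉ S) :
    ∃ d ∈ Board n, d ∉ insert c F ∧ d ∉ S ∧ Inv n (insert c F) (insert d S) := by
  obtain ⟨hFB, hdis, hgood⟩ := h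
  have hsub : insert c F ⊆ Board n := Finset.insert_subset hcB hFB
  have hdisj : ∀ d, d ∉ insert c F → Disjoint (insert c F) (insert d S) := by
    intro d hd
    rw [Finset.disjoint_insert_right]
    refine ⟨hd, ?_⟩
    rw [Finset.disjoint_insert_left]
    exact ⟨hcS, hdis⟩
  set g₀ : ℤ := c.1 / 4 with hg0
  have hcg : 4 * g₀ ≤ c.1 ∧ c.1 < 4 * g₀ + 4 := by
    constructor <;> omega
  have hother : ∀ g : ℤ, g ≠ g₀ → Good n F S g → Good n (insert c F) S g := by
    intro g hg hG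
    exact hG.other (by omega)
  by_cases hin : 0 ≤ g₀ ∧ 4 * g₀ + 3 < n
  · rcases (hgood g₀ hin.1 hin.2).step hcg hcB hcS with hG | ⟨d, hdB, hdF, hdS, hG⟩
    · obtain ⟨d, hdB, hdF, hdS⟩ := hd
      refine ⟨d, hdB, hdF, hdS, hsub, hdisj d hdF, ?_⟩
      intro g hg0' hgn
      by_cases hg : g = g₀
      · subst hg; exact hG.mono d
      · exact (hother g hg (hgood g hg0' hgn)).mono d
    · refine ⟨d, hdB, hdF, hdS, hsub, hdisj d hdF, ?_⟩
      intro g hg0' hgn
      by_cases hg : g = g₀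
      · rw [hg]; exact hG
      · exact (hother g hg (hgood g hg0' hgn)).mono d
  · obtain ⟨d, hdB, hdF, hdS⟩ := hd
    refine ⟨d, hdB, hdF, hdS, hsub, hdisj d hdF, ?_⟩
    intro g hg0' hgn
    have hg : g ≠ g₀ := by
      rintro rfl
      exact hin ⟨hg0', hgn⟩
    exact (hother g hg (hgood g hg0' hgn)).mono d

/-- Stones in two consecutive rows of a winning chain. -/
lemma FirstWon.cross {n : ℕ} {T : Finset Cell} (h : FirstWon n T) (i : ℤ) (h0 : 0 ≤ i)
    (hn : i < (n : ℤ) - 1) : ∃ x ∈ T, ∃ y ∈ T, x.1 = i ∧ y.1 = i + 1 ∧ Adj x y := by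
  obtain ⟨a, ha, b, hb, ha0, hbn, hab⟩ := h
  have key : ∀ z, Relation.ReflTransGen (fun x y => y ∈ T ∧ Adj x y) a z →
      z ∈ T ∧ ∀ i : ℤ, 0 ≤ i → i < z.1 → ∃ x ∈ T, ∃ y ∈ T, x.1 = i ∧ y.1 = i + 1 ∧ Adj x y := by
    intro z hz
    induction hz with
    | refl => exact ⟨ha, fun i h1 h2 => by have e : a.1 = 0 := ha0; omega⟩
    | @tail z w _ hzw ih =>
      obtain ⟨hzT, ih⟩ := ih
      refine ⟨hzw.1, fun i h1 h2 => ?_⟩
      by_cases hi : i < z.1
      · exact ih i h1 hi
      · have hadj := hzw.2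
        unfold Adj at hadj
        refine ⟨z, hzT, w, hzw.1, ?_, ?_, hzw.2⟩ <;> omega
  have e : b.1 = (n : ℤ) - 1 := hbn
  exact (key b hab).2 i h0 (by omega)

lemma FirstWon.row {n : ℕ} {T : Finset Cell} (h : FirstWon n T) (i : ℤ) (h0 : 0 ≤ i)
    (hn : i ≤ (n : ℤ) - 1) : ∃ x ∈ T, x.1 = i := by
  by_cases hi : i < (n : ℤ) - 1
  · obtain ⟨x, hx, -, -, hxi, -⟩ := h.cross i h0 hi
    exact ⟨x, hx, hxi⟩
  · obtain ⟨a, ha, b, hb, ha0, hbn, hab⟩ := h
    have e : b.1 = (n : ℤ) - 1 := hbn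
    exact ⟨b, hb, by omega⟩

lemma Pr.fin {n : ℕ} {F S : Finset Cell} {p q c : Cell} (h : Pr n F S p q) (hpq : p ≠ q)
    (hFB : insert c F ⊆ Board n) (hdis : Disjoint (insert c F) S)
    (hp : p ∈ insert c F) (hq : q ∈ insert c F) : False := by
  rcases h with h | h | h | h | ⟨h1, h2⟩
  · exact (Finset.disjoint_left.1 hdis hp) h
  · exact (Finset.disjoint_left.1 hdis hq) h
  · exact h (hFB hp)
  · exact h (hFB hq)
  · rcases Finset.mem_insert.1 hp with e | e
    · rcases Finset.mem_insert.1 hq with e' | e'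
      · exact hpq (e.trans e'.symm)
      · exact h2 e'
    · exact h1 e

lemma Blk.fin {n : ℕ} {T S : Finset Cell} {b : Cell} (h : Blk n S b)
    (hFB : T ⊆ Board n) (hdis : Disjoint T S) (hb : b ∈ T) : False := by
  rcases h with h | h
  · exact (Finset.disjoint_left.1 hdis hb) h
  · exact h (hFB hb)

/-- No winning chain uses exactly one stone in each row of a group. -/
lemma Good.not_thin {n : ℕ} {F S : Finset Cell} {g : ℤ} {c : Cell} (h : Good n F S g)
    (hg : 0 ≤ g) (hgn : 4 * g + 3 < n)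
    (hFB : insert c F ⊆ Board n) (hdis : Disjoint (insert c F) S)
    (hwon : FirstWon n (insert c F))
    (huniq : ∀ x ∈ insert c F, ∀ y ∈ insert c F, x.1 = y.1 → 4 * g ≤ x.1 → x.1 < 4 * g + 4 →
      x = y) : False := by
  rcases h with h | ⟨x, hx, y, hy, hxy, h1, h2, h3⟩ | ⟨i, j, h1, h2, hs, hb, hp1, hp2⟩ |
    ⟨i, j, h1, h2, hs, hb, hp1, hp2⟩
  · obtain ⟨x, hx, hx1⟩ := hwon.row (4 * g) (by omega) (by omega)
    obtain ⟨y, hy, hy1⟩ := hwon.row (4 * g + 1) (by omega) (by omega)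
    have hxc : x = c := by
      rcases Finset.mem_insert.1 hx with e | e
      · exact e
      · exact absurd ⟨by omega, by omega⟩ (h x e)
    have hyc : y = c := by
      rcases Finset.mem_insert.1 hy with e | e
      · exact e
      · exact absurd ⟨by omega, by omega⟩ (h y e)
    have : x.1 = y.1 := by rw [hxc, hyc]
    omega
  · exact hxy (huniq x (Finset.mem_insert_of_mem hx) y (Finset.mem_insert_of_mem hy) h1 h2 h3)
  · have hsT : ((i, j) : Cell) ∈ insert c F := Finset.mem_insert_of_mem hs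
    obtain ⟨x, hx, y, hy, hxi, hyi, hxy⟩ := hwon.cross i (by omega) (by omega)
    obtain ⟨x', hx', y', hy', hxi', hyi', hxy'⟩ := hwon.cross (i + 1) (by omega) (by omega)
    have e1 : x = (i, j) := huniq x hx _ hsT (hxi) (by omega) (by omega)
    have e2 : x' = y := huniq x' hx' y hy (by omega) (by omega) (by omega)
    subst e1 e2
    obtain ⟨y1, y2⟩ := x'
    obtain ⟨z1, z2⟩ := y'
    simp only [Adj] at hxy hxy' hyi hyi' hxi hxi'
    have hy2 : y2 = j ∨ y2 = j - 1 := by omega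
    have hz2 : z2 = y2 ∨ z2 = y2 - 1 := by omega
    obtain rfl : y1 = i + 1 := by omega
    obtain rfl : z1 = i + 2 := by omega
    rcases hy2 with rfl | rfl
    · rcases hz2 with rfl | rfl
      · exact hp1.fin (by simp) hFB hdis hy hy'
      · exact hb.fin hFB hdis hy'
    · rcases hz2 with rfl | rfl
      · exact hb.fin hFB hdis hy'
      · have e3 : j - 1 - 1 = j - 2 := by ring
        rw [e3] at hy'
        exact hp2.fin (by simp) hFB hdis hy hy'
  · have hsT : ((i, j) : Cell) ∈ insert c F := Finset.mem_insert_of_mem hs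
    obtain ⟨x, hx, y, hy, hxi, hyi, hxy⟩ := hwon.cross (i - 1) (by omega) (by omega)
    obtain ⟨x', hx', y', hy', hxi', hyi', hxy'⟩ := hwon.cross (i - 2) (by omega) (by omega)
    have e1 : y = (i, j) := huniq y hy _ hsT (by show y.1 = i; omega) (by omega) (by omega)
    have e2 : y' = x := huniq y' hy' x hx (by omega) (by omega) (by omega)
    subst e1 e2
    obtain ⟨y1, y2⟩ := y'
    obtain ⟨z1, z2⟩ := x'
    simp only [Adj] at hxy hxy' hyi hyi' hxi hxi'
    have hy2 : y2 = j ∨ y2 = j + 1 := by omega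
    have hz2 : z2 = y2 ∨ z2 = y2 + 1 := by omega
    obtain rfl : y1 = i - 1 := by omega
    obtain rfl : z1 = i - 2 := by omega
    rcases hy2 with rfl | rfl
    · rcases hz2 with rfl | rfl
      · exact hp1.fin (by simp) hFB hdis hx hx'
      · exact hb.fin hFB hdis hx'
    · rcases hz2 with rfl | rfl
      · exact hb.fin hFB hdis hx'
      · have e3 : j + 1 + 1 = j + 2 := by ring
        rw [e3] at hx'
        exact hp2.fin (by simp) hFB hdis hx hx'

lemma sum_groups (r : ℕ → ℕ) (G : ℕ)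
    (h : ∀ g < G, 5 ≤ r (4 * g) + r (4 * g + 1) + r (4 * g + 2) + r (4 * g + 3)) :
    5 * G ≤ ∑ i ∈ Finset.range (4 * G), r i := by
  induction G with
  | zero => simp
  | succ G ih =>
    have h1 := ih (fun g hg => h g (by omega))
    have h2 := h G (by omega)
    have e : 4 * (G + 1) = 4 * G + 1 + 1 + 1 + 1 := by ring
    rw [e, Finset.sum_range_succ, Finset.sum_range_succ, Finset.sum_range_succ,
      Finset.sum_range_succ]
    omega

/-- A winning position reached against the second player's strategy has many stones. -/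
lemma Inv.count {n : ℕ} {F S : Finset Cell} {c : Cell} (h : Inv n F S)
    (hcB : c ∈ Board n) (hcS : c ∉ S) (hwon : FirstWon n (insert c F)) :
    n + n / 4 ≤ (insert c F).card := by
  obtain ⟨hFB, hdis, hgood⟩ := h
  have hsub : insert c F ⊆ Board n := Finset.insert_subset hcB hFB
  have hdisj : Disjoint (insert c F) S := by
    rw [Finset.disjoint_insert_left]
    exact ⟨hcS, hdis⟩
  set T := insert c F with hT
  let r : ℕ → ℕ := fun i => (T.filter (fun x => x.1 = (i : ℤ))).card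
  have hr1 : ∀ i, i < n → 1 ≤ r i := by
    intro i hi
    obtain ⟨x, hx, hxi⟩ := hwon.row (i : ℤ) (by omega) (by omega)
    exact Finset.card_pos.2 ⟨x, Finset.mem_filter.2 ⟨hx, hxi⟩⟩
  have hr5 : ∀ g < n / 4, 5 ≤ r (4 * g) + r (4 * g + 1) + r (4 * g + 2) + r (4 * g + 3) := by
    intro g hg
    by_contra hlt
    have a0 := hr1 (4 * g) (by omega)
    have a1 := hr1 (4 * g + 1) (by omega)
    have a2 := hr1 (4 * g + 2) (by omega)
    have a3 := hr1 (4 * g + 3) (by omega)
    have hle : ∀ k, k < 4 → r (4 * g + k) ≤ 1 := by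
      intro k hk
      interval_cases k
      · show r (4 * g) ≤ 1
        omega
      · omega
      · omega
      · omega
    have huniq : ∀ x ∈ T, ∀ y ∈ T, x.1 = y.1 → 4 * (g : ℤ) ≤ x.1 → x.1 < 4 * (g : ℤ) + 4 →
        x = y := by
      intro x hx y hy hxy h1 h2
      obtain ⟨k, hk⟩ : ∃ k : ℕ, x.1 = 4 * (g : ℤ) + k := ⟨(x.1 - 4 * g).toNat, by omega⟩
      have hk4 : k < 4 := by omega
      refine Finset.card_le_one.1 (hle k hk4) x ?_ y ?_
      · refine Finset.mem_filter.2 ⟨hx, ?_⟩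
        push_cast
        exact hk
      · refine Finset.mem_filter.2 ⟨hy, ?_⟩
        push_cast
        rw [← hxy]
        exact hk
    exact (hgood g (by omega) (by omega)).not_thin (by omega) (by omega) hsub hdisj hwon huniq
  have hsum : ∑ i ∈ Finset.range n, r i ≤ T.card := by
    have hU : (Finset.range n).biUnion (fun i : ℕ => T.filter (fun x => x.1 = (i : ℤ))) ⊆ T := by
      intro x hx
      obtain ⟨i, -, hx⟩ := Finset.mem_biUnion.1 hx
      exact (Finset.mem_filter.1 hx).1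
    calc ∑ i ∈ Finset.range n, r i
        = ((Finset.range n).biUnion (fun i : ℕ => T.filter (fun x => x.1 = (i : ℤ)))).card := by
          rw [Finset.card_biUnion]
          intro i _ j _ hij
          show Disjoint _ _
          rw [Finset.disjoint_left]
          intro x hx hx'
          have h1 := (Finset.mem_filter.1 hx).2
          have h2 := (Finset.mem_filter.1 hx').2
          omega
      _ ≤ T.card := Finset.card_le_card hU
  have hG := sum_groups r (n / 4) hr5
  have hsplit : ∑ i ∈ Finset.range n, r i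
      = ∑ i ∈ Finset.range (4 * (n / 4)), r i + ∑ i ∈ Finset.Ico (4 * (n / 4)) n, r i :=
    (Finset.sum_range_add_sum_Ico _ (by omega)).symm
  have htail : n - 4 * (n / 4) ≤ ∑ i ∈ Finset.Ico (4 * (n / 4)) n, r i := by
    calc n - 4 * (n / 4) = ∑ _i ∈ Finset.Ico (4 * (n / 4)) n, 1 := by simp
      _ ≤ _ := Finset.sum_le_sum (fun i hi => hr1 i (Finset.mem_Ico.1 hi).2)
  omega

theorem main_aux (n k : ℕ) : ∀ F S : Finset Cell, Inv n F S → CanWin n k F S →
    n + n / 4 ≤ F.card + k := by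
  induction k with
  | zero => intro F S _ h; exact h.elim
  | succ k ih =>
    intro F S hI h
    obtain ⟨c, hcB, hcF, hcS, h⟩ := h
    have hcard : (insert c F).card = F.card + 1 := Finset.card_insert_of_notMem hcF
    rcases h with hwon | ⟨hd, hall⟩
    · have := hI.count hcB hcS hwon
      omega
    · obtain ⟨d, hdB, hdF, hdS, hI'⟩ := hI.reply hcB hcS hd
      have := ih _ _ hI' (hall d hdB hdF hdS).2
      omega

theorem main (n k : ℕ) (h : CanWin n k ∅ ∅) : n + n / 4 ≤ k := by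
  have hI : Inv n ∅ ∅ := by
    refine ⟨by simp, by simp, ?_⟩
    intro g _ _
    exact Or.inl (by simp)
  simpa using main_aux n k ∅ ∅ hI h

end Pool.Agent.R5.HX
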